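import Mathlib

set_option autoImplicit false

/-!
# The Derrida–Retaux recursion with `m = 2`: exact recursions for the generating function at `2`
-/

open Finset Filter Topology

namespace Q287.DR

/-- The convolution square. -/
noncomputable def cv (p : ℕ → ℝ) (l : ℕ) : ℝ := ∑ ij ∈ antidiagonal l, p ij.1 * p ij.2

/-- One step of the recursion. -/
noncomputable def nxt (p : ℕ → ℝ) (k : ℕ) : ℝ := cv p (k + 1) + (if k = 0 then p 0 ^ 2 else 0)

theorem sum_fin_two (p : ℕ → ℝ) (k : ℕ) :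
    (∑ x : Fin 2 → Fin (k + 2), if (∑ i, (x i : ℕ)) = k + 1 then ∏ i, p (x i) else 0) =
      cv p (k + 1) := by
  rw [← (finTwoArrowEquiv (Fin (k + 2))).symm.sum_comp]
  simp only [finTwoArrowEquiv_symm_apply, Fin.sum_univ_two, Fin.prod_univ_two, Matrix.cons_val_zero,
    Matrix.cons_val_one]
  rw [Fintype.sum_prod_type]
  unfold cv
  rw [Finset.Nat.sum_antidiagonal_eq_sum_range_succ_mk, ← Fin.sum_univ_eq_sum_range
    (fun a => p a * p (k + 1 - a)) (k + 1).succ]
  refine sum_congr rfl fun a _ => ?_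
  have ha : (a : ℕ) < k + 2 := a.2
  rw [sum_eq_single (⟨k + 1 - a, by omega⟩ : Fin (k + 2))]
  · rw [if_pos (by simp; omega)]
  · intro b _ hb
    rw [if_neg]
    intro h
    apply hb
    ext
    have h' : (a : ℕ) + (b : ℕ) = k + 1 := h
    show (b : ℕ) = k + 1 - a
    omega
  · intro h; exact absurd (mem_univ _) h

/-- weighted sequence `q k = p k * 2 ^ k` -/
noncomputable def wt (p : ℕ → ℝ) (k : ℕ) : ℝ := p k * 2 ^ k

theorem wt_cv (p : ℕ → ℝ) (l : ℕ) : cv p l * 2 ^ l = cv (wt p) l := by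
  unfold cv wt
  rw [sum_mul]
  refine sum_congr rfl fun ij hij => ?_
  rw [HasAntidiagonal.mem_antidiagonal] at hij
  rw [← hij, pow_add]
  ring

theorem wt_nxt (p : ℕ → ℝ) (k : ℕ) :
    wt (nxt p) k = cv (wt p) (k + 1) / 2 + (if k = 0 then wt p 0 ^ 2 else 0) := by
  rw [← wt_cv]
  unfold wt nxt
  by_cases hk : k = 0
  · subst hk; simp
  · rw [if_neg hk, if_neg hk, pow_succ]; ring

theorem cv_nonneg {q : ℕ → ℝ} (h0 : ∀ k, 0 ≤ q k) (l : ℕ) : 0 ≤ cv q l :=
  sum_nonneg fun _ _ => mul_nonneg (h0 _) (h0 _)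

theorem hasSum_cv {q : ℕ → ℝ} (h0 : ∀ k, 0 ≤ q k) {A : ℝ} (hA : HasSum q A) :
    HasSum (cv q) (A ^ 2) := by
  have hs : Summable (fun k => ‖q k‖) := by
    simp only [Real.norm_eq_abs, abs_of_nonneg (h0 _)]; exact hA.summable
  have h1 := tsum_mul_tsum_eq_tsum_sum_antidiagonal_of_summable_norm hs hs
  have h2 := (summable_norm_sum_mul_antidiagonal_of_summable_norm hs hs).of_norm
  rw [hA.tsum_eq] at h1
  have h3 : Summable (cv q) := h2
  have h4 : ∑' l, cv q l = A ^ 2 := by rw [sq]; exact h1.symm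
  rw [← h4]; exact h3.hasSum

theorem hasSum_mul_cv {q : ℕ → ℝ} (h0 : ∀ k, 0 ≤ q k) {A M : ℝ} (hA : HasSum q A)
    (hM : HasSum (fun k : ℕ => (k : ℝ) * q k) M) :
    HasSum (fun l : ℕ => (l : ℝ) * cv q l) (2 * M * A) := by
  have hs : Summable (fun k => ‖q k‖) := by
    simp only [Real.norm_eq_abs, abs_of_nonneg (h0 _)]; exact hA.summable
  have hs2 : Summable (fun k : ℕ => ‖(k : ℝ) * q k‖) := by
    simp only [Real.norm_eq_abs]
    refine hM.summable.congr fun k => ?_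
    rw [abs_of_nonneg (mul_nonneg (Nat.cast_nonneg _) (h0 _))]
  have h1 := tsum_mul_tsum_eq_tsum_sum_antidiagonal_of_summable_norm hs2 hs
  have h2 := (summable_norm_sum_mul_antidiagonal_of_summable_norm hs2 hs).of_norm
  have h1' := tsum_mul_tsum_eq_tsum_sum_antidiagonal_of_summable_norm hs hs2
  have h2' := (summable_norm_sum_mul_antidiagonal_of_summable_norm hs hs2).of_norm
  rw [hA.tsum_eq, hM.tsum_eq] at h1 h1'
  have h3 := h2.hasSum.add h2'.hasSum
  rw [← h1, ← h1'] at h3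
  have h4 : (fun l : ℕ => (l : ℝ) * cv q l) = fun l : ℕ => (∑ kl ∈ antidiagonal l, (kl.1 : ℝ) * q kl.1 * q kl.2) +
      ∑ kl ∈ antidiagonal l, q kl.1 * ((kl.2 : ℝ) * q kl.2) := by
    funext l
    unfold cv
    rw [mul_sum, ← sum_add_distrib]
    refine sum_congr rfl fun ij hij => ?_
    rw [HasAntidiagonal.mem_antidiagonal] at hij
    rw [← hij]
    push_cast
    ring
  rw [h4, show 2 * M * A = M * A + A * M by ring]
  exact h3

theorem hasSum_shift {f : ℕ → ℝ} {a : ℝ} (h : HasSum f a) : HasSum (fun k => f (k + 1)) (a - f 0) := by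
  have := (hasSum_nat_add_iff' (f := f) (g := a) 1).2 h
  simpa using this

/-- The invariants of the recursion at criticality. -/
structure Crit (q : ℕ → ℝ) (A : ℝ) : Prop where
  nonneg : ∀ k, 0 ≤ q k
  sum : HasSum q A
  msum : HasSum (fun k : ℕ => (k : ℝ) * q k) A

/-- The recursion for the weights. -/
noncomputable def nq (q : ℕ → ℝ) (k : ℕ) : ℝ := cv q (k + 1) / 2 + (if k = 0 then q 0 ^ 2 else 0)

theorem hasSum_single_zero (c : ℝ) : HasSum (fun k : ℕ => if k = 0 then c else 0) c := by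
  have := hasSum_ite_eq (0 : ℕ) c
  exact this

theorem Crit.step {q : ℕ → ℝ} {A : ℝ} (h : Crit q A) : Crit (nq q) ((A ^ 2 + q 0 ^ 2) / 2) := by
  have hc0 : cv q 0 = q 0 ^ 2 := by unfold cv; simp [sq]
  have h1 := hasSum_cv h.nonneg h.sum
  have h2 := hasSum_mul_cv h.nonneg h.sum h.msum
  refine ⟨fun k => ?_, ?_, ?_⟩
  · unfold nq
    have := cv_nonneg h.nonneg (k + 1)
    split_ifs
    · positivity
    · linarith
  · have h3 := ((hasSum_shift h1).div_const 2).add (hasSum_single_zero (q 0 ^ 2))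
    rw [hc0, show (A ^ 2 - q 0 ^ 2) / 2 + q 0 ^ 2 = (A ^ 2 + q 0 ^ 2) / 2 by ring] at h3
    exact h3
  · -- `k * q' k = ((k + 1) - 1) * cv (k + 1) / 2`
    have h3 := ((hasSum_shift h2).sub (hasSum_shift h1)).div_const 2
    have h4 : (fun k : ℕ => (k : ℝ) * nq q k) =
        fun k : ℕ => (((k + 1 : ℕ) : ℝ) * cv q (k + 1) - cv q (k + 1)) / 2 := by
      funext k
      unfold nq
      by_cases hk : k = 0
      · subst hk; simp
      · rw [if_neg hk]; push_cast; ring
    rw [hc0, show (2 * A * A - ((0 : ℕ) : ℝ) * q 0 ^ 2 - (A ^ 2 - q 0 ^ 2)) / 2 =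
      (A ^ 2 + q 0 ^ 2) / 2 by push_cast; ring] at h3
    rw [h4]
    exact h3

end Q287.DR
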