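import Pool.Agent.Q287.DR.Main

set_option autoImplicit false

/-!
# The heavy-tailed critical initial law for `m = 2`
-/

open Finset Filter Topology

namespace Q287.DR

/-- unnormalized weights -/
noncomputable def r (k : ℕ) : ℝ := if k = 0 then 1 / 4 else 1 / ((k : ℝ) * (k + 1) * (k + 2))

theorem r_nonneg (k : ℕ) : 0 ≤ r k := by unfold r; split_ifs <;> positivity

theorem sum_r (K : ℕ) : ∑ k ∈ range (K + 1), r k = 1 / 2 - 1 / (2 * ((K : ℝ) + 1) * (K + 2)) := by
  induction K with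
  | zero => simp [r]; norm_num
  | succ K ih =>
    rw [sum_range_succ, ih]
    unfold r
    rw [if_neg (by omega)]
    push_cast
    field_simp
    ring

theorem sum_kr (K : ℕ) : ∑ k ∈ range (K + 1), (k : ℝ) * r k = 1 / 2 - 1 / ((K : ℝ) + 2) := by
  induction K with
  | zero => simp
  | succ K ih =>
    rw [sum_range_succ, ih]
    unfold r
    rw [if_neg (by omega)]
    push_cast
    field_simp
    ring

theorem tendsto_one_div_add (c : ℝ) : Tendsto (fun n : ℕ => 1 / ((n : ℝ) + c)) atTop (𝓝 0) := by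
  simp only [one_div]
  exact tendsto_inv_atTop_zero.comp (tendsto_natCast_atTop_atTop.atTop_add tendsto_const_nhds)

theorem hasSum_r : HasSum r (1 / 2) := by
  rw [hasSum_iff_tendsto_nat_of_nonneg r_nonneg]
  rw [← tendsto_add_atTop_iff_nat 1]
  simp only [sum_r]
  have h1 := (tendsto_one_div_add 1).mul (tendsto_one_div_add 2)
  have h2 := (tendsto_const_nhds (x := (1 / 2 : ℝ)) (f := atTop)).sub (h1.mul_const (1 / 2))
  simp only [mul_zero, zero_mul, sub_zero] at h2
  refine h2.congr fun n => ?_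
  have e1 : (n : ℝ) + 1 ≠ 0 := by positivity
  have e2 : (n : ℝ) + 2 ≠ 0 := by positivity
  field_simp

theorem hasSum_kr : HasSum (fun k : ℕ => (k : ℝ) * r k) (1 / 2) := by
  rw [hasSum_iff_tendsto_nat_of_nonneg (fun k => mul_nonneg (Nat.cast_nonneg _) (r_nonneg k))]
  rw [← tendsto_add_atTop_iff_nat 1]
  simp only [sum_kr]
  have h2 := (tendsto_const_nhds (x := (1 / 2 : ℝ)) (f := atTop)).sub (tendsto_one_div_add 2)
  simpa using h2

/-- unnormalized probabilities -/
noncomputable def w0 (k : ℕ) : ℝ := r k / 2 ^ k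

theorem w0_nonneg (k : ℕ) : 0 ≤ w0 k := div_nonneg (r_nonneg k) (by positivity)

theorem w0_le (k : ℕ) : w0 k ≤ r k := by
  unfold w0
  have : (1 : ℝ) ≤ 2 ^ k := one_le_pow₀ (by norm_num)
  exact div_le_self (r_nonneg k) this

theorem summable_w0 : Summable w0 := Summable.of_nonneg_of_le w0_nonneg w0_le hasSum_r.summable

/-- normalization -/
noncomputable def Wt : ℝ := ∑' k, w0 k

theorem Wt_pos : 0 < Wt := by
  have h := sum_le_hasSum {0} (fun i _ => w0_nonneg i) summable_w0.hasSum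
  have : w0 0 = 1 / 4 := by simp [w0, r]
  rw [sum_singleton, this] at h
  unfold Wt
  linarith

/-- The initial law. -/
noncomputable def p0 (k : ℕ) : ℝ := w0 k / Wt

/-- All the laws. -/
noncomputable def pp : ℕ → ℕ → ℝ
  | 0 => p0
  | n + 1 => nxt (pp n)

theorem p0_nonneg (k : ℕ) : 0 ≤ p0 k := div_nonneg (w0_nonneg k) Wt_pos.le

theorem hasSum_p0 : HasSum p0 1 := by
  have := summable_w0.hasSum.div_const Wt
  rwa [show (∑' k, w0 k) = Wt from rfl, div_self Wt_pos.ne'] at this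

theorem wt_p0 (k : ℕ) : wt p0 k = r k / Wt := by
  unfold wt p0 w0
  have := Wt_pos.ne'
  field_simp

theorem crit0 : Crit (wt p0) (1 / 2 / Wt) := by
  refine ⟨fun k => ?_, ?_, ?_⟩
  · rw [wt_p0]; exact div_nonneg (r_nonneg k) Wt_pos.le
  · have h : wt p0 = fun k => r k / Wt := funext wt_p0
    rw [h]
    exact hasSum_r.div_const Wt
  · have h : (fun k : ℕ => (k : ℝ) * wt p0 k) = fun k : ℕ => (k : ℝ) * r k / Wt := by
      funext k; rw [wt_p0]; ring
    rw [h]
    exact hasSum_kr.div_const Wt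

/-- The generating function at two. -/
noncomputable def AA : ℕ → ℝ
  | 0 => 1 / 2 / Wt
  | n + 1 => (AA n ^ 2 + wt (pp n) 0 ^ 2) / 2

theorem wt_pp_succ (n : ℕ) : wt (pp (n + 1)) = nq (wt (pp n)) := by
  funext k
  show wt (nxt (pp n)) k = _
  rw [wt_nxt]
  rfl

theorem sys : Sys (fun n => wt (pp n)) AA := by
  have hcrit : ∀ n, Crit (wt (pp n)) (AA n) := by
    intro n
    induction n with
    | zero => exact crit0
    | succ n ih =>
      rw [wt_pp_succ]
      exact ih.step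
  refine ⟨hcrit, fun n => wt_pp_succ n, fun n => rfl, fun n => ?_⟩
  exact (hcrit n).sum.nonneg (hcrit n).nonneg

theorem pp_prob (n : ℕ) : (∀ k, 0 ≤ pp n k) ∧ HasSum (pp n) 1 := by
  induction n with
  | zero => exact ⟨p0_nonneg, hasSum_p0⟩
  | succ n ih =>
    have hc0 : cv (pp n) 0 = pp n 0 ^ 2 := by unfold cv; simp [sq]
    constructor
    · intro k
      show 0 ≤ nxt (pp n) k
      unfold nxt
      have := cv_nonneg ih.1 (k + 1)
      split_ifs
      · positivity
      · linarith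
    · show HasSum (nxt (pp n)) 1
      have h1 := (hasSum_shift (hasSum_cv ih.1 ih.2)).add (hasSum_single_zero (pp n 0 ^ 2))
      rw [hc0, show (1 : ℝ) ^ 2 - pp n 0 ^ 2 + pp n 0 ^ 2 = 1 by ring] at h1
      exact h1

theorem tail0 (K : ℕ) (hK : 1 ≤ K) :
    1 / (2 * Wt) / (K * (K + 1)) ≤ AA 0 - ∑ i ∈ range K, wt (pp 0) i := by
  obtain ⟨k, rfl⟩ : ∃ k, K = k + 1 := ⟨K - 1, by omega⟩
  have h1 : ∑ i ∈ range (k + 1), wt (pp 0) i = (1 / 2 - 1 / (2 * ((k : ℝ) + 1) * (k + 2))) / Wt := by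
    rw [← sum_r, sum_div]
    exact sum_congr rfl fun i _ => wt_p0 i
  rw [h1]
  show 1 / (2 * Wt) / (((k + 1 : ℕ) : ℝ) * (((k + 1 : ℕ) : ℝ) + 1)) ≤ 1 / 2 / Wt - _
  have hW := Wt_pos
  refine le_of_eq ?_
  push_cast
  field_simp
  ring

end Q287.DR
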