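import Pool.Agent.Q287.DR.Basic

set_option autoImplicit false

/-!
# The Derrida–Retaux recursion with `m = 2`: the spine bound and the contradiction
-/

open Finset Filter Topology

namespace Q287.DR

theorem sum_cv_le {q : ℕ → ℝ} (h0 : ∀ k, 0 ≤ q k) (N : ℕ) :
    ∑ l ∈ range N, cv q l ≤ (∑ i ∈ range N, q i) ^ 2 := by
  classical
  set s : Finset (ℕ × ℕ) := (range N ×ˢ range N).filter (fun ij => ij.1 + ij.2 < N) with hs
  have h1 : ∑ l ∈ range N, cv q l = ∑ ij ∈ s, q ij.1 * q ij.2 := by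
    rw [← sum_fiberwise_of_maps_to (s := s) (t := range N) (g := fun ij => ij.1 + ij.2)]
    · refine sum_congr rfl fun l hl => ?_
      rw [mem_range] at hl
      unfold cv
      refine sum_congr ?_ fun _ _ => rfl
      ext ij
      rw [HasAntidiagonal.mem_antidiagonal, mem_filter, hs, mem_filter, mem_product, mem_range,
        mem_range]
      omega
    · intro ij hij
      rw [hs, mem_filter] at hij
      rw [mem_range]; exact hij.2
  rw [h1, sq, sum_mul_sum, ← sum_product']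
  refine sum_le_sum_of_subset_of_nonneg (filter_subset _ _) fun ij _ _ => ?_
  exact mul_nonneg (h0 _) (h0 _)

/-- Markov's inequality for the tail. -/
theorem tail_le {q : ℕ → ℝ} {A : ℝ} (h : Crit q A) (K : ℕ) :
    K * (A - ∑ i ∈ range K, q i) ≤ A := by
  have h1 := (hasSum_nat_add_iff' (f := q) (g := A) K).2 h.sum
  have h2 := (hasSum_nat_add_iff' (f := fun k : ℕ => (k : ℝ) * q k) (g := A) K).2 h.msum
  have h3 := h1.mul_left (K : ℝ)
  have h4 := hasSum_le (fun i => by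
    have : (K : ℝ) * q (i + K) ≤ ((i + K : ℕ) : ℝ) * q (i + K) := by
      refine mul_le_mul_of_nonneg_right ?_ (h.nonneg _)
      push_cast
      linarith [(Nat.cast_nonneg i : (0 : ℝ) ≤ i)]
    exact this) h3 h2
  have h5 : 0 ≤ ∑ i ∈ range K, (i : ℝ) * q i :=
    sum_nonneg fun i _ => mul_nonneg (Nat.cast_nonneg _) (h.nonneg _)
  linarith

theorem tail_nonneg {q : ℕ → ℝ} {A : ℝ} (h : Crit q A) (K : ℕ) :
    0 ≤ A - ∑ i ∈ range K, q i := by
  have := sum_le_hasSum (range K) (fun i _ => h.nonneg i) h.sum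
  linarith

/-- One step of the spine bound. -/
theorem tail_step {q : ℕ → ℝ} {A : ℝ} (h : Crit q A) {K : ℕ} (hK : 1 ≤ K) :
    (A - ∑ i ∈ range (K + 1), q i) * A * (K / (K + 1)) ≤
      (A ^ 2 + q 0 ^ 2) / 2 - ∑ k ∈ range K, nq q k := by
  have hc0 : cv q 0 = q 0 ^ 2 := by unfold cv; simp [sq]
  have h1 : ∑ k ∈ range K, nq q k = (∑ l ∈ range (K + 1), cv q l) / 2 + q 0 ^ 2 / 2 := by
    unfold nq
    rw [sum_add_distrib, sum_ite_eq' (range K) 0, if_pos (mem_range.2 hK), ← sum_div,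
      sum_range_succ' (cv q) K, hc0]
    ring
  have h2 := sum_cv_le h.nonneg (K + 1)
  have h3 := tail_le h (K + 1)
  have h4 := tail_nonneg h (K + 1)
  rw [h1]
  set S := ∑ i ∈ range (K + 1), q i with hS
  push_cast at h3
  have hK0 : (0 : ℝ) < (K : ℝ) + 1 := by positivity
  -- `T A K / (K + 1) = T A - T A / (K + 1) ≤ T A - T ^ 2`
  have h5 : (A - S) * A * (K / (K + 1)) = (A - S) * A - (A - S) * A / (K + 1) := by
    field_simp
    ring
  have h6 : (A - S) ^ 2 ≤ (A - S) * A / (K + 1) := by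
    rw [le_div_iff₀ hK0]
    nlinarith
  rw [h5]
  nlinarith [sq_nonneg (A - S)]

/-- The iterated system. -/
structure Sys (q : ℕ → ℕ → ℝ) (A : ℕ → ℝ) : Prop where
  crit : ∀ n, Crit (q n) (A n)
  qs : ∀ n, q (n + 1) = nq (q n)
  As : ∀ n, A (n + 1) = (A n ^ 2 + q n 0 ^ 2) / 2
  pos : ∀ n, 0 ≤ A n

theorem spine {q : ℕ → ℕ → ℝ} {A : ℕ → ℝ} (h : Sys q A) (n : ℕ) : ∀ K : ℕ, 1 ≤ K →
    (A 0 - ∑ i ∈ range (K + n), q 0 i) * (K / (K + n)) * ∏ i ∈ range n, A i ≤
      A n - ∑ i ∈ range K, q n i := by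
  induction n with
  | zero =>
    intro K hK
    have : (K : ℝ) ≠ 0 := by
      have : 0 < K := hK
      positivity
    simp [this]
  | succ n ih =>
    intro K hK
    have h1 := ih (K + 1) (by omega)
    have h2 := tail_step (h.crit n) hK
    rw [← h.As n, ← h.qs n] at h2
    refine le_trans ?_ h2
    have h3 : 0 ≤ A n * ((K : ℝ) / (K + 1)) := mul_nonneg (h.pos n) (by positivity)
    have h4 := mul_le_mul_of_nonneg_right h1 h3
    rw [show K + (n + 1) = K + 1 + n by omega]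
    refine le_trans (le_of_eq ?_) (h4.trans (le_of_eq ?_))
    · rw [prod_range_succ]
      push_cast
      have e1 : (K : ℝ) + 1 ≠ 0 := by positivity
      have e2 : (K : ℝ) + 1 + n ≠ 0 := by positivity
      have e3 : (K : ℝ) + (n + 1) ≠ 0 := by positivity
      field_simp
      ring
    · ring

/-- A sequence bounded above cannot have increments `≥ c / (n + 1)`. -/
theorem no_harmonic {f : ℕ → ℝ} {B c : ℝ} (hc : 0 < c) {N : ℕ} (hB : ∀ n, N ≤ n → f n ≤ B)
    (hf : ∀ n, N ≤ n → f n + c * (1 / ((n : ℝ) + 1)) ≤ f (n + 1)) : False := by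
  have h1 : ∀ n, N ≤ n → f N + c * (∑ k ∈ range n, 1 / ((k : ℝ) + 1) -
      ∑ k ∈ range N, 1 / ((k : ℝ) + 1)) ≤ f n := by
    intro n hn
    induction n, hn using Nat.le_induction with
    | base => simp
    | succ n hn ih =>
      rw [sum_range_succ]
      have := hf n hn
      nlinarith
  have h2 := Real.tendsto_sum_range_one_div_nat_succ_atTop.eventually
    (eventually_gt_atTop ((B - f N) / c + ∑ k ∈ range N, 1 / ((k : ℝ) + 1)))
  obtain ⟨n, hn1, hn2⟩ := (h2.and (eventually_ge_atTop N)).exists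
  have h3 := h1 n hn2
  have h4 := hB n hn2
  have h5 : (B - f N) / c < ∑ k ∈ range n, 1 / ((k : ℝ) + 1) - ∑ k ∈ range N, 1 / ((k : ℝ) + 1) := by
    linarith
  rw [div_lt_iff₀ hc] at h5
  linarith

/-- The discrete Riccati inequality forces `a n ≥ 3 / (2 n)`. -/
theorem riccati {a : ℕ → ℝ} (h0 : ∀ n, 0 ≤ a n) {N : ℕ}
    (h : ∀ n, N ≤ n → a (n + 1) ≤ a n + a n ^ 2 / 2 - 3 / (n : ℝ) ^ 2) :
    ∀ n, N + 100 ≤ n → 3 / 2 ≤ n * a n := by
  intro n₀ hn₀
  by_contra hcon
  push Not at hcon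
  -- one step
  have hstep : ∀ n, N + 100 ≤ n → (n : ℝ) * a n < 3 / 2 →
      ((n + 1 : ℕ) : ℝ) * a (n + 1) ≤ n * a n - 1 / 10 * (1 / ((n : ℝ) + 1)) := by
    intro n hn hx
    have hn100 : (100 : ℝ) ≤ n := by
      have : 100 ≤ n := by omega
      exact_mod_cast this
    have hn0 : (0 : ℝ) < n := by linarith
    have h1 := h n (by omega)
    have h2 := h0 n
    obtain ⟨x, hx1⟩ : ∃ x, x = (n : ℝ) * a n := ⟨_, rfl⟩
    have hx2 : a n = x / n := by rw [hx1]; field_simp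
    have hx3 : 0 ≤ x := by rw [hx1]; positivity
    rw [← hx1] at hx ⊢
    rw [hx2] at h1
    push_cast
    have h3 : ((n : ℝ) + 1) * a (n + 1) ≤ (n + 1) * (x / n + (x / n) ^ 2 / 2 - 3 / (n : ℝ) ^ 2) :=
      mul_le_mul_of_nonneg_left h1 (by linarith)
    refine h3.trans ?_
    have h4 : ((n : ℝ) + 1) * (x / n + (x / n) ^ 2 / 2 - 3 / (n : ℝ) ^ 2) - (x - 1 / 10 * (1 / ((n : ℝ) + 1)))
        = (x * n * (n + 1) + (n + 1) ^ 2 * (x ^ 2 / 2 - 3) + 1 / 10 * n ^ 2) / (n ^ 2 * (n + 1)) := by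
      field_simp
      ring
    have h5 : (x * n * (n + 1) + (n + 1) ^ 2 * (x ^ 2 / 2 - 3) + 1 / 10 * n ^ 2) ≤ 0 := by
      have e1 : x ^ 2 / 2 - 3 ≤ -15 / 8 := by nlinarith
      have e2 : ((n : ℝ) + 1) ^ 2 * (x ^ 2 / 2 - 3) ≤ ((n : ℝ) + 1) ^ 2 * (-15 / 8) :=
        mul_le_mul_of_nonneg_left e1 (by positivity)
      have e3 : x * n * (n + 1) ≤ 3 / 2 * n * (n + 1) := by
        have : 0 ≤ (n : ℝ) * (n + 1) := by positivity
        nlinarith
      nlinarith
    have h6 : (x * n * (n + 1) + (n + 1) ^ 2 * (x ^ 2 / 2 - 3) + 1 / 10 * (n : ℝ) ^ 2) / (n ^ 2 * (n + 1)) ≤ 0 :=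
      div_nonpos_of_nonpos_of_nonneg h5 (by positivity)
    linarith
  have hall : ∀ n, n₀ ≤ n → (n : ℝ) * a n < 3 / 2 := by
    intro n hn
    induction n, hn using Nat.le_induction with
    | base => exact hcon
    | succ n hn ih =>
      have h1 := hstep n (by omega) ih
      have h2 : 0 < 1 / 10 * (1 / ((n : ℝ) + 1)) := by positivity
      linarith
  refine no_harmonic (f := fun n => -((n : ℝ) * a n)) (B := 0) (c := 1 / 10) (by norm_num) (N := n₀)
    (fun n _ => ?_) (fun n hn => ?_)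
  · have := mul_nonneg (Nat.cast_nonneg n : (0 : ℝ) ≤ n) (h0 n)
    linarith
  · have := hstep n (by omega) (hall n hn)
    linarith

theorem A_le {p : ℕ → ℝ} (h0 : ∀ k, 0 ≤ p k) (h1 : HasSum p 1) {A : ℝ} (h : Crit (wt p) A) :
    A ≤ 2 := by
  have h2 := (hasSum_nat_add_iff' (f := wt p) (g := A) 2).2 h.sum
  have h3 := (hasSum_nat_add_iff' (f := fun k : ℕ => (k : ℝ) * wt p k) (g := A) 2).2 h.msum
  have h4 := hasSum_le (fun i => by
    have : (2 : ℝ) * wt p (i + 2) ≤ ((i + 2 : ℕ) : ℝ) * wt p (i + 2) := by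
      refine mul_le_mul_of_nonneg_right ?_ (h.nonneg _)
      push_cast
      linarith [(Nat.cast_nonneg i : (0 : ℝ) ≤ i)]
    exact this) (h2.mul_left 2) h3
  have h5 := sum_le_hasSum (range 2) (fun i _ => h0 i) h1
  simp only [sum_range_succ, range_zero, sum_empty, wt] at h4 h5
  norm_num at h4 h5
  linarith

/-- The contradiction. -/
theorem contra {p : ℕ → ℕ → ℝ} {A : ℕ → ℝ} (h0 : ∀ n k, 0 ≤ p n k) (h1 : ∀ n, HasSum (p n) 1)
    (h : Sys (fun n => wt (p n)) A) {c : ℝ} (hc : 0 < c)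
    (htail : ∀ K : ℕ, 1 ≤ K → c / (K * (K + 1)) ≤ A 0 - ∑ i ∈ range K, wt (p 0) i)
    {N : ℕ} (hb : ∀ n, N ≤ n → 34 / 10 / (n : ℝ) ^ 2 ≤ 1 - p n 0) : False := by
  -- `a n = A n - 1`
  have hA1 : ∀ n, 1 ≤ A n := by
    intro n
    refine hasSum_le (fun k => ?_) (h1 n) (h.crit n).sum
    show p n k ≤ p n k * 2 ^ k
    have : (1 : ℝ) ≤ 2 ^ k := one_le_pow₀ (by norm_num)
    nlinarith [h0 n k]
  have hp1 : ∀ n, p n 0 ≤ 1 := by
    intro n
    have := sum_le_hasSum {0} (fun i _ => h0 n i) (h1 n)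
    simpa using this
  have ha : ∀ n, N + 10 ≤ n → (A (n + 1) - 1) ≤ (A n - 1) + (A n - 1) ^ 2 / 2 - 3 / (n : ℝ) ^ 2 := by
    intro n hn
    have hn10 : (10 : ℝ) ≤ n := by
      have : 10 ≤ n := by omega
      exact_mod_cast this
    have e1 := h.As n
    have e2 : wt (p n) 0 = p n 0 := by simp [wt]
    rw [e2] at e1
    have e3 := hb n (by omega)
    obtain ⟨y, hy⟩ : ∃ y, y = 1 / (n : ℝ) ^ 2 := ⟨_, rfl⟩
    have hy0 : 0 < y := by rw [hy]; positivity
    have hy1 : y ≤ 1 / 100 := by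
      rw [hy]
      refine one_div_le_one_div_of_le (by norm_num) ?_
      nlinarith
    have e4 : 34 / 10 / (n : ℝ) ^ 2 = 34 / 10 * y := by rw [hy]; ring
    have e5 : 3 / (n : ℝ) ^ 2 = 3 * y := by rw [hy]; ring
    rw [e4] at e3
    rw [e5, e1]
    have e6 := hp1 n
    have e7 := h0 n 0
    -- b - b^2/2 ≥ β - β^2/2
    have e8 : 3 * y ≤ (1 - p n 0) - (1 - p n 0) ^ 2 / 2 := by nlinarith
    nlinarith
  have hlow := riccati (a := fun n => A n - 1) (fun n => by linarith [hA1 n]) ha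
  -- growth of the product
  obtain ⟨P, hP⟩ : ∃ P : ℕ → ℝ, P = fun n => ∏ i ∈ range n, A i := ⟨_, rfl⟩
  have hPpos : ∀ n, 0 < P n := by
    intro n
    rw [hP]
    exact prod_pos fun i _ => lt_of_lt_of_le one_pos (hA1 i)
  have hPs : ∀ n, P (n + 1) = P n * A n := by
    intro n; rw [hP]; exact prod_range_succ _ _
  have hup : ∀ n, 1 ≤ n → P n / n ≤ 24 / c := by
    intro n hn
    have hn0 : (1 : ℝ) ≤ n := by exact_mod_cast hn
    have e1 := spine h n n hn
    have e2 := tail_le (h.crit n) n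
    have e3 := A_le (h0 n) (h1 n) (h.crit n)
    have e4 := htail (n + n) (by omega)
    have e5 : (n : ℝ) / (n + n) = 1 / 2 := by field_simp; norm_num
    have e6 : ∏ i ∈ range n, A i = P n := by rw [hP]
    rw [e5, e6] at e1
    push_cast at e4
    have e7 : (A 0 - ∑ i ∈ range (n + n), wt (p 0) i) * (1 / 2) * P n * n ≤ 2 := by
      have := mul_le_mul_of_nonneg_right e1 (by linarith : (0 : ℝ) ≤ n)
      linarith
    have e8 : c / (((n : ℝ) + n) * (n + n + 1)) * (1 / 2) * P n * n ≤ 2 := by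
      refine le_trans ?_ e7
      have : 0 ≤ P n := (hPpos n).le
      gcongr
    have e9 : c / (((n : ℝ) + n) * (n + n + 1)) * (1 / 2) * P n * n = c * P n / (4 * (2 * n + 1)) := by
      field_simp
      ring
    rw [e9, div_le_iff₀ (by positivity)] at e8
    rw [div_le_div_iff₀ (by linarith) hc]
    nlinarith
  refine no_harmonic (f := fun n => P n / n) (B := 24 / c) (c := P (N + 200) / ((N + 200 : ℕ) : ℝ) / 2)
    (by have := hPpos (N + 200); positivity) (N := N + 200) (fun n hn => hup n (by omega)) ?_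
  have hinc : ∀ n, N + 200 ≤ n → P n / n * (1 + 1 / 2 * (1 / ((n : ℝ) + 1))) ≤ P (n + 1) / ((n + 1 : ℕ) : ℝ) := by
    intro n hn
    have hn0 : (0 : ℝ) < n := by
      have : 0 < n := by omega
      exact_mod_cast this
    have e1 := hlow n (by omega)

    rw [hPs]
    push_cast
    have e2 : 1 + 3 / 2 / n ≤ A n := by
      have : 3 / 2 / (n : ℝ) ≤ A n - 1 := by
        rw [div_le_iff₀ hn0]; linarith
      linarith
    have e3 : P n / n * (1 + 1 / 2 * (1 / ((n : ℝ) + 1))) = P n * (1 + 3 / 2 / n) / (n + 1) := by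
      field_simp
      ring
    rw [e3]
    have := (hPpos n).le
    gcongr
  have hmono : ∀ n, N + 200 ≤ n → P (N + 200) / ((N + 200 : ℕ) : ℝ) ≤ P n / n := by
    intro n hn
    induction n, hn using Nat.le_induction with
    | base => exact le_rfl
    | succ n hn ih =>
      have e1 := hinc n hn
      have e2 : 0 ≤ P n / n * (1 / 2 * (1 / ((n : ℝ) + 1))) := by
        have := (hPpos n).le
        positivity
      linarith
  intro n hn
  have e1 := hinc n hn
  have e2 := hmono n hn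
  have e3 : P (N + 200) / ((N + 200 : ℕ) : ℝ) / 2 * (1 / ((n : ℝ) + 1)) ≤
      P n / n * (1 / 2 * (1 / ((n : ℝ) + 1))) := by
    have : 0 ≤ 1 / 2 * (1 / ((n : ℝ) + 1)) := by positivity
    have := mul_le_mul_of_nonneg_right e2 this
    linarith
  linarith

end Q287.DR
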